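import Pool.Agent.Lib.MP_4ba7b3_gt.Top
import Pool.Agent.Lib.MP_4ba7b3_gt.Many

/-! `s_b` is not compatible with `λ_b` as soon as few primes are missing from `b`. -/

namespace Pool.Agent.Results.MP_4ba7b3_gt.ManyPrimes

open Pool.Agent.Lib.MP_4ba7b3_gt

/-- The sum of `1 / p` over the primes `p` that divide no `b n` converges. -/
def FewMissing (b : ℕ → ℕ) : Prop :=
  Summable fun p : {p : ℕ // p.Prime ∧ ∀ n, ¬ p ∣ b n} => (1 : ℝ) / (p : ℕ)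

theorem result :
    (IsDSeq (fun n => (n + 1).factorial) ∧ FewMissing fun n => (n + 1).factorial) ∧
    ∀ b : ℕ → ℕ, IsDSeq b → FewMissing b → ∃ χ : ℤ →+ UnitAddCircle,
      (∃ c c' : ℕ → ℕ, IsDInf c ∧ IsDInf c' ∧ lam c = lam b ∧ lam c' = lam b ∧
        @Continuous ℤ UnitAddCircle (tau c ⊓ tau c') _ χ) ∧
      @Continuous ℤ UnitAddCircle (supTop b) _ χ ∧
      ¬ @Continuous ℤ UnitAddCircle (lam b) _ χ ∧
      ∀ (k : ℤ) (n : ℕ), χ 1 ≠ (((k : ℝ) / (b n : ℝ) : ℝ) : UnitAddCircle) := by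
  refine ⟨⟨isDSeq_fact, ?_⟩, fun b hb hs => ?_⟩
  · haveI : IsEmpty {p : ℕ // p.Prime ∧ ∀ n, ¬ p ∣ (n + 1).factorial} :=
      ⟨fun p => p.2.2 p (Nat.dvd_factorial p.2.1.pos (by omega))⟩
    exact Summable.of_finite
  obtain ⟨ξ, u, v, gu, gv, irr, h⟩ := many hb.2.1 hb.dvd
    ((summable_subtype_iff_indicator (s := {p : ℕ | p.Prime ∧ ∀ n, ¬ p ∣ b n})
      (f := fun p : ℕ => (1 : ℝ) / p)).1 hs)
  set χ : ℤ →+ UnitAddCircle := zmultiplesHom _ ((ξ : ℝ) : UnitAddCircle) with hχ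
  have h1 : χ 1 = (ξ : UnitAddCircle) := by simp [hχ]
  have h2 : ∀ n, χ (b n : ℤ) ≠ 0 := fun n => by
    rw [chi_eq χ h1]; exact_mod_cast irr n
  have h3 := cont_of_bound (fun s : Bool => cond s u v) χ (δ₀ := 1 / 8) (by norm_num)
    fun δ hδ k hk => by
      rw [chi_eq χ h1]
      have := h k δ hδ (hk true) (hk false)
      have := norm_nonneg ((k * ξ : ℝ) : UnitAddCircle)
      linarith
  have g : ∀ s : Bool, IsDInf (cond s u v) ∧ lam (cond s u v) = lam b := by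
    rintro (_ | _)
    exacts [gv.dinf, gu.dinf]
  refine ⟨χ, ⟨u, v, gu.dinf.1, gv.dinf.1, gu.dinf.2, gv.dinf.2, ?_⟩,
    continuous_le_dom (supTop_le _ g) h3, fun hc => ?_, fun k n e => h2 n (kill_of_eq hb χ e)⟩
  · rwa [iInf_bool_eq] at h3
  · obtain ⟨m, hm⟩ := kill_of_cont hb χ hc
    exact h2 m hm

end Pool.Agent.Results.MP_4ba7b3_gt.ManyPrimes
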